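import Pool.Agent.K7.H50.OG.Basic

set_option autoImplicit false

/-! Project OG, job A. -/

namespace Pool.Agent.K7.H28.OGA

open Pool.Agent.K7.H50.OG

/-- the word `0^(c-1) 1 3^(c-1) 2^(k-c) 4^(k-c)` -/
def w (k c x : ℕ) : Fin 5 :=
  if x ≤ c - 1 then 0 else if x ≤ c then 1 else if x ≤ 2 * c - 1 then 3 else
    if x ≤ k + c - 1 then 2 else 4

theorem spec (k c x : ℕ) : (x ≤ c - 1 ∧ w k c x = 0) ∨ (c - 1 < x ∧ x ≤ c ∧ w k c x = 1) ∨
    (c < x ∧ x ≤ 2 * c - 1 ∧ w k c x = 3) ∨ (2 * c - 1 < x ∧ x ≤ k + c - 1 ∧ w k c x = 2) ∨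
    (k + c - 1 < x ∧ w k c x = 4) := by
  unfold w
  split_ifs <;> simp <;> omega

theorem bl {k c x y : ℕ} (h : rg (w k c x) (w k c y)) {a b : Fin 5} (ha : w k c x = a)
    (hb : w k c y = b) (hab : ¬ rg a b) : False := by
  rw [ha, hb] at h
  exact hab h

theorem t : StA := by
  intro k E c _ hc hck h1 h2 ⟨i, j, hi, hic, hcj, hj, hij⟩
  refine ⟨w k c, ?_⟩
  rintro ⟨f, hr, hm, he⟩
  have a1 := hr 1 le_rfl (by omega)
  have a2 := hr k (by omega) le_rfl
  have g1 := mono_gap hm le_rfl (show 1 ≤ c by omega) hck.le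
  have g2 := mono_gap hm (show 1 ≤ c by omega) hck.le le_rfl
  have g3 := mono_gap hm hi hic.le hck.le
  have g4 := mono_gap hm (show 1 ≤ c by omega) hcj.le hj
  have g5 := mono_gap hm (show 1 ≤ j by omega) hj le_rfl
  have g6 := mono_gap hm le_rfl hi (show i ≤ k by omega)
  have e1 := he 1 c le_rfl hc hck.le h1
  have e2 := he c k (by omega) hck le_rfl h2
  have e3 := he i j hi (by omega) hj hij
  rcases spec k c (f c) with s | s | s | s | s
  · omega
  · rcases spec k c (f k) with s' | s' | s' | s' | s'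
    · omega
    · omega
    · exact bl e2 s.2.2 s'.2.2 (by decide)
    · rcases spec k c (f i) with q | q | q | q | q
      · rcases spec k c (f j) with q' | q' | q' | q' | q'
        · omega
        · omega
        · exact bl e3 q.2 q'.2.2 (by decide)
        · exact bl e3 q.2 q'.2.2 (by decide)
        · omega
      all_goals omega
    · exact bl e2 s.2.2 s'.2 (by decide)
  · rcases spec k c (f 1) with s' | s' | s' | s' | s'
    · exact bl e1 s'.2 s.2.2 (by decide)
    · exact bl e1 s'.2.2 s.2.2 (by decide)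
    all_goals omega
  · rcases spec k c (f k) with s' | s' | s' | s' | s'
    · omega
    · omega
    · omega
    · omega
    · exact bl e2 s.2.2 s'.2 (by decide)
  · omega

end Pool.Agent.K7.H28.OGA
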