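import Pool.Agent.K7.H50.OG.Basic

set_option autoImplicit false

/-! Project OG, job B. -/

namespace Pool.Agent.K7.H28.OGB

open Pool.Agent.K7.H50.OG

/-- the word `0^(b-1) 2^(a-1) 3 4^(k-b) 1^(k-a)` -/
def w (k a b x : ℕ) : Fin 5 :=
  if x ≤ b - 1 then 0 else if x ≤ a + b - 2 then 2 else if x ≤ a + b - 1 then 3 else
    if x ≤ k + a - 1 then 4 else 1

theorem spec (k a b x : ℕ) : (x ≤ b - 1 ∧ w k a b x = 0) ∨
    (b - 1 < x ∧ x ≤ a + b - 2 ∧ w k a b x = 2) ∨
    (a + b - 2 < x ∧ x ≤ a + b - 1 ∧ w k a b x = 3) ∨
    (a + b - 1 < x ∧ x ≤ k + a - 1 ∧ w k a b x = 4) ∨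
    (k + a - 1 < x ∧ w k a b x = 1) := by
  unfold w
  split_ifs <;> simp <;> omega

theorem bl {k c d x y : ℕ} (h : rg (w k c d x) (w k c d y)) {a b : Fin 5} (ha : w k c d x = a)
    (hb : w k c d y = b) (hab : ¬ rg a b) : False := by
  rw [ha, hb] at h
  exact hab h

theorem t : StB := by
  intro k E a b _ hJ hb hba hak h1 h2
  refine ⟨w k a b, ?_⟩
  rintro ⟨f, hr, hm, he⟩
  have a1 := hr 1 le_rfl (by omega)
  have a2 := hr k (by omega) le_rfl
  have g1 := mono_gap hm le_rfl (show 1 ≤ b by omega) (by omega)
  have g2 := mono_gap hm (show 1 ≤ b by omega) hba.le hak.le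
  have g3 := mono_gap hm (show 1 ≤ a by omega) hak.le le_rfl
  have g4 := mono_gap hm le_rfl (show 1 ≤ k by omega) le_rfl
  have e1 := he 1 b le_rfl hb (by omega) h1
  have e2 := he a k (by omega) hak le_rfl h2
  -- the vertex `1` is not in the class `0`
  have f1 : b ≤ f 1 := by
    by_contra hlt
    rcases spec k a b (f 1) with q | q | q | q | q
    · rcases spec k a b (f b) with s | s | s | s | s
      · omega
      · exact bl e1 q.2 s.2.2 (by decide)
      · exact bl e1 q.2 s.2.2 (by decide)
      · rcases spec k a b (f a) with r | r | r | r | r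
        · omega
        · omega
        · omega
        · rcases spec k a b (f k) with r' | r' | r' | r' | r'
          · omega
          · omega
          · omega
          · omega
          · exact bl e2 r.2.2 r'.2 (by decide)
        · omega
      · omega
    all_goals omega
  -- the vertex `k` is not in the class `1`
  have f2 : f k ≤ k + a - 1 := by
    by_contra hlt
    rcases spec k a b (f k) with q | q | q | q | q
    · omega
    · omega
    · omega
    · omega
    · rcases spec k a b (f a) with s | s | s | s | s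
      · omega
      · omega
      · exact bl e2 s.2.2 q.2 (by decide)
      · exact bl e2 s.2.2 q.2 (by decide)
      · omega
  obtain ⟨u, u1, u2, u3⟩ := cut hm (a + b - 2)
  have hu1 : 1 ≤ u := by
    by_contra h
    have := u3 1 (by omega) (by omega)
    omega
  have hu2 : u < a := by
    by_contra h
    have h3 := mono_gap hm le_rfl hu1 u1
    have h4 := u2 u hu1 le_rfl
    omega
  obtain ⟨i, j, hi, hi1, hj1, hj, hij⟩ := hJ (u + 1) (by omega) (by omega)
  have e3 := he i j hi (by omega) hj hij
  have h5 := mono_gap hm le_rfl hi (show i ≤ k by omega)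
  have h6 := u2 i hi (by omega)
  have h7 := u3 (u + 1) (by omega) (by omega)
  have h8 := mono_gap hm (show 1 ≤ u + 1 by omega) hj1.le hj
  have h9 := mono_gap hm (show 1 ≤ j by omega) hj le_rfl
  rcases spec k a b (f i) with s | s | s | s | s
  · omega
  · rcases spec k a b (f j) with r | r | r | r | r
    · omega
    · omega
    · omega
    · exact bl e3 s.2.2 r.2.2 (by decide)
    · omega
  all_goals omega

end Pool.Agent.K7.H28.OGB
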