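import Pool.Agent.K7.H50.OG.Basic

set_option autoImplicit false

/-! Project OG, job C. -/

namespace Pool.Agent.K7.H28.OGC

open Pool.Agent.K7.H50.OG

/-- the word `2 1^(k-2) 3^(v-1) 0 4^(k-v)` -/
def w (k v x : ℕ) : Fin 5 :=
  if x ≤ 1 then 2 else if x ≤ k - 1 then 1 else if x ≤ k + v - 2 then 3 else
    if x ≤ k + v - 1 then 0 else 4

theorem spec (k v x : ℕ) : (x ≤ 1 ∧ w k v x = 2) ∨
    (1 < x ∧ x ≤ k - 1 ∧ w k v x = 1) ∨
    (k - 1 < x ∧ x ≤ k + v - 2 ∧ w k v x = 3) ∨
    (k + v - 2 < x ∧ x ≤ k + v - 1 ∧ w k v x = 0) ∨
    (k + v - 1 < x ∧ w k v x = 4) := by
  unfold w
  split_ifs <;> simp <;> omega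

theorem bl {k c x y : ℕ} (h : rg (w k c x) (w k c y)) {a b : Fin 5} (ha : w k c x = a)
    (hb : w k c y = b) (hab : ¬ rg a b) : False := by
  rw [ha, hb] at h
  exact hab h

theorem t : StC := by
  intro k E u v hC h1 hl hu huv hv h2
  refine ⟨w k v, ?_⟩
  rintro ⟨f, hr, hm, he⟩
  have a1 := hr 1 le_rfl (by omega)
  have a2 := hr k (by omega) le_rfl
  have g4 := mono_gap hm le_rfl (show 1 ≤ k by omega) le_rfl
  have e1 := he 1 k le_rfl (by omega) le_rfl h1
  obtain ⟨p, p1, p2, p3⟩ := cut hm (k - 1)
  have pos : ∀ i, 1 ≤ i → i ≤ k → f 1 + (i - 1) ≤ f i ∧ f i + (k - i) ≤ f k := fun i h3 h4 =>
    ⟨mono_gap hm le_rfl h3 h4, mono_gap hm h3 h4 le_rfl⟩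
  rcases spec k v (f 1) with q | q | q | q | q
  · -- `1` is mapped to the class `2`
    rcases spec k v (f k) with r | r | r | r | r
    · omega
    · omega
    · -- `k` is in the class `3`
      -- the vertices `2..p` are closed
      rcases Nat.lt_or_ge p 2 with hp | hp
      · have h3 := p3 2 (by omega) (by omega)
        have h4 := (pos 2 (by omega) (by omega)).2
        omega
      · have hpk : p < k := by
          by_contra h
          have := p2 k (by omega) (by omega)
          omega
        have key := Con.closed hC (fun i => 2 ≤ i ∧ i ≤ p) (by
          intro i j hi hij hj hE
          rcases Nat.lt_or_ge i 2 with h3 | h3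
          · have h4 : i = 1 := by omega
            subst h4
            rcases Nat.lt_or_ge j k with h5 | h5
            · exact absurd hE (hl j hij h5)
            · constructor
              · intro h6
                omega
              · intro h6
                omega
          · rcases Nat.lt_or_ge p i with h4 | h4
            · constructor <;> intro h5 <;> omega
            · rcases Nat.lt_or_ge p j with h5 | h5
              · exfalso
                have e3 := he i j hi hij hj hE
                have h6 := p2 i hi h4
                have h7 := p3 j h5 hj
                have h8 := pos i hi (by omega)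
                have h9 := pos j (by omega) hj
                rcases spec k v (f i) with s | s | s | s | s
                · omega
                · rcases spec k v (f j) with s' | s' | s' | s' | s'
                  · omega
                  · omega
                  · exact bl e3 s.2.2 s'.2.2 (by decide)
                  · omega
                  · omega
                all_goals omega
              · constructor <;> intro h6 <;> omega) (i := 2) (by omega) (by omega)
            ⟨le_rfl, hp⟩ k (by omega) le_rfl
        omega
    · exact bl e1 q.2 r.2.2 (by decide)
    · exact bl e1 q.2 r.2 (by decide)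
  · -- `1` is mapped to the class `1`
    rcases spec k v (f k) with r | r | r | r | r
    · omega
    · omega
    · exact bl e1 q.2.2 r.2.2 (by decide)
    · -- `k` is mapped to the class `0`
      have hpk : p + 1 < k := by
        by_contra h
        have h3 := p2 (k - 1) (by omega) (by omega)
        have h4 := (pos (k - 1) (by omega) (by omega)).1
        omega
      have hp1 : 1 ≤ p := by
        by_contra h
        have := p3 1 (by omega) (by omega)
        omega
      have key := Con.closed hC (fun i => p < i ∧ i < k) (by
        intro i j hi hij hj hE
        have e3 := he i j hi hij hj hE
        have h8 := pos i hi (by omega)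
        have h9 := pos j (by omega) hj
        rcases Nat.lt_or_ge p i with h4 | h4
        · rcases Nat.lt_or_ge j k with h5 | h5
          · constructor <;> intro h6 <;> omega
          · exfalso
            have h7 : j = k := by omega
            subst h7
            have h6 := p3 i h4 (by omega)
            rcases spec j v (f i) with s | s | s | s | s
            · omega
            · omega
            · exact bl e3 s.2.2 r.2.2 (by decide)
            · omega
            · omega
        · rcases Nat.lt_or_ge p j with h5 | h5
          · rcases Nat.lt_or_ge j k with h10 | h10
            · exfalso
              have h6 := p2 i hi h4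
              have h7 := p3 j h5 hj
              rcases spec k v (f i) with s | s | s | s | s
              · omega
              · rcases spec k v (f j) with s' | s' | s' | s' | s'
                · omega
                · omega
                · exact bl e3 s.2.2 s'.2.2 (by decide)
                · omega
                · omega
              all_goals omega
            · constructor <;> intro h6 <;> omega
          · constructor <;> intro h6 <;> omega) (i := p + 1) (by omega) (by omega)
          ⟨by omega, hpk⟩ 1 le_rfl (by omega)
      omega
    · exact bl e1 q.2.2 r.2 (by decide)
  · -- `1` is mapped to the class `3`: the copy is an interval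
    have e2 := he u v (by omega) huv (by omega) h2
    have h3 := pos u (by omega) (by omega)
    have h4 := pos v (by omega) (by omega)
    rcases spec k v (f u) with s | s | s | s | s
    · omega
    · omega
    · rcases spec k v (f v) with r | r | r | r | r
      · omega
      · omega
      · omega
      · exact bl e2 s.2.2 r.2.2 (by decide)
      · omega
    all_goals omega
  · omega
  · omega

end Pool.Agent.K7.H28.OGC
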