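import Pool.Agent.K7.H24.PD.Stm

/-!
# Project PD (helper24), job ROUGH: the density of the integers without prime factors up to `s`
-/

set_option autoImplicit false

namespace Pool.Agent.K7.H28.PDROUGH

open Filter Topology Finset Pool.Agent.K7.H24.PD

/-- the primes up to `s` -/
def P (s : ℕ) : Finset ℕ := (Icc 1 s).filter Nat.Prime

/-- their product -/
def Q (s : ℕ) : ℕ := ∏ p ∈ P s, p

theorem prime_of_mem {s p : ℕ} (h : p ∈ P s) : p.Prime := (mem_filter.1 h).2

theorem Q_pos (s : ℕ) : 0 < Q s := Finset.prod_pos fun _ hp => (prime_of_mem hp).pos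

theorem rough_iff (s r : ℕ) : Rough s r ↔ (Q s).Coprime r := by
  unfold Q
  rw [Nat.coprime_prod_left_iff]
  constructor
  · intro h p hp
    rw [(prime_of_mem hp).coprime_iff_not_dvd]
    intro hd
    have h1 := h p (prime_of_mem hp) hd
    have h2 := (mem_Icc.1 (mem_filter.1 hp).1).2
    omega
  · intro h p hp hd
    by_contra hle
    have h1 := h p (mem_filter.2 ⟨mem_Icc.2 ⟨hp.one_lt.le, by omega⟩, hp⟩)
    exact (hp.coprime_iff_not_dvd.1 h1) hd

theorem V_eq (s : ℕ) : V s = ((Q s).totient : ℝ) / Q s := by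
  have h1 := Nat.totient_eq_mul_prod_factors (Q s)
  have h2 : (Q s).primeFactors = P s := Nat.primeFactors_prod fun p hp => prime_of_mem hp
  rw [h2] at h1
  have h3 : ((Q s).totient : ℝ) = Q s * ∏ p ∈ P s, (1 - (p : ℝ)⁻¹) := by
    have := congrArg (fun q : ℚ => (q : ℝ)) h1
    push_cast at this
    exact this
  have hQ : (Q s : ℝ) ≠ 0 := by exact_mod_cast (Q_pos s).ne'
  rw [h3, mul_div_cancel_left₀ _ hQ]
  unfold V P
  simp only [one_div]

theorem rho_eq (s N : ℕ) : rho s N = ((Ico 1 (1 + N)).filter (fun r => (Q s).Coprime r)).card := by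
  classical
  unfold rho
  congr 1
  ext r
  simp only [mem_filter, mem_Icc, mem_Ico, rough_iff]
  constructor
  · rintro ⟨⟨h1, h2⟩, h3⟩; exact ⟨⟨h1, by omega⟩, h3⟩
  · rintro ⟨⟨h1, h2⟩, h3⟩; exact ⟨⟨h1, by omega⟩, h3⟩

theorem rho_mul (s k : ℕ) : rho s (Q s * k) = k * (Q s).totient := by
  induction k with
  | zero => rw [rho_eq]; simp
  | succ k ih =>
    rw [rho_eq] at ih ⊢
    have h1 : Ico 1 (1 + Q s * (k + 1)) = Ico 1 (1 + Q s * k) ∪ Ico (1 + Q s * k) (1 + Q s * k + Q s) := by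
      rw [Finset.Ico_union_Ico_eq_Ico (by omega) (by omega)]
      congr 1
      ring
    rw [h1, filter_union, card_union_of_disjoint, ih, Nat.filter_coprime_Ico_eq_totient]
    · ring
    · exact disjoint_filter_filter (Finset.Ico_disjoint_Ico_consecutive _ _ _)

theorem rho_mono (s : ℕ) {M N : ℕ} (h : M ≤ N) : rho s M ≤ rho s N := by
  rw [rho_eq, rho_eq]
  refine card_le_card (filter_subset_filter _ fun x hx => ?_)
  rw [mem_Ico] at hx ⊢
  omega

theorem t : StRough := by
  intro s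
  rw [V_eq]
  have hQ := Q_pos s
  have hQR : (0 : ℝ) < Q s := by exact_mod_cast hQ
  have hb : ∀ N : ℕ, 0 < N → |(rho s N : ℝ) / N - ((Q s).totient : ℝ) / Q s| ≤
      ((Q s).totient : ℝ) / N := by
    intro N hN
    have hNR : (0 : ℝ) < N := by exact_mod_cast hN
    have h1 : Q s * (N / Q s) ≤ N := Nat.mul_div_le N (Q s)
    have h2 : N ≤ Q s * (N / Q s + 1) := (Nat.lt_mul_div_succ N hQ).le
    have h3 := (rho_mono s h1)
    have h4 := (rho_mono s h2)
    rw [rho_mul] at h3 h4
    have h3' : ((N / Q s : ℕ) : ℝ) * (Q s).totient ≤ rho s N := by exact_mod_cast h3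
    have h4' : (rho s N : ℝ) ≤ (((N / Q s : ℕ) : ℝ) + 1) * (Q s).totient := by exact_mod_cast h4
    have h1' : (Q s : ℝ) * ((N / Q s : ℕ) : ℝ) ≤ N := by exact_mod_cast h1
    have h2' : (N : ℝ) ≤ Q s * (((N / Q s : ℕ) : ℝ) + 1) := by exact_mod_cast h2
    have ht : (0 : ℝ) ≤ (Q s).totient := Nat.cast_nonneg _
    set k : ℝ := ((N / Q s : ℕ) : ℝ) with hk
    set T : ℝ := ((Q s).totient : ℝ) with hT
    have e1 : (rho s N : ℝ) / N - T / Q s = ((rho s N : ℝ) * Q s - N * T) / (N * Q s) := by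
      field_simp
    have e2 : T / N = (T * Q s) / (N * Q s) := by
      field_simp
    rw [e1, e2, abs_div, abs_of_pos (mul_pos hNR hQR)]
    refine div_le_div_of_nonneg_right ?_ (mul_pos hNR hQR).le
    rw [abs_le]
    constructor
    · nlinarith [mul_le_mul_of_nonneg_right h3' hQR.le, mul_le_mul_of_nonneg_right h2' ht]
    · nlinarith [mul_le_mul_of_nonneg_right h4' hQR.le, mul_le_mul_of_nonneg_right h1' ht]
  have hlim : Tendsto (fun N : ℕ => ((Q s).totient : ℝ) / N) atTop (𝓝 0) :=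
    tendsto_const_div_atTop_nhds_zero_nat _
  rw [tendsto_iff_dist_tendsto_zero]
  refine squeeze_zero' (Eventually.of_forall fun N => dist_nonneg) ?_ hlim
  filter_upwards [eventually_gt_atTop 0] with N hN
  rw [Real.dist_eq]
  exact hb N hN

end Pool.Agent.K7.H28.PDROUGH
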